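import Mathlib

/-!
# The sponge problem for topological embeddings

In dimension `n ≥ 2` there is a topological embedding of the whole space into the unit ball which
maps every nonconstant rectifiable curve to a curve of infinite length.
-/

open Set Filter Topology MeasureTheory
open scoped ENNReal

namespace Pool.Agent.Results.MP_ecd4e3_gt.WildEmbedding

/-! ### A function of infinite variation on every interval -/

/-- distance to the nearest integer -/
noncomputable def phi (x : ℝ) : ℝ := |x - round x|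

/-- a continuous function of infinite variation on every interval -/
noncomputable def h (x : ℝ) : ℝ := ∑' n : ℕ, (3 / 4 : ℝ) ^ n * phi (4 ^ n * x)

lemma phi_norm (x : ℝ) : phi x = ‖(x : UnitAddCircle)‖ := UnitAddCircle.norm_eq.symm

lemma phi_nonneg (x : ℝ) : 0 ≤ phi x := abs_nonneg _

lemma phi_le (x : ℝ) : phi x ≤ 1 / 2 := abs_sub_round x

lemma phi_cont : Continuous phi := by
  have : phi = fun x : ℝ => ‖(x : UnitAddCircle)‖ := funext phi_norm
  rw [this]
  exact continuous_norm.comp (AddCircle.continuous_mk' 1)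

lemma phi_neg (x : ℝ) : phi (-x) = phi x := by
  rw [phi_norm, phi_norm, AddCircle.coe_neg, norm_neg]

lemma phi_lip (x y : ℝ) : |phi x - phi y| ≤ |x - y| := by
  rw [phi_norm, phi_norm]
  have h1 : ‖((x - y : ℝ) : UnitAddCircle)‖ ≤ |x - y| := by
    rw [UnitAddCircle.norm_eq]
    simpa using round_le (x - y) 0
  rw [AddCircle.coe_sub] at h1
  exact (abs_norm_sub_norm_le _ _).trans h1

lemma phi_int (k : ℤ) : phi k = 0 := by simp [phi]

lemma phi_half (k : ℤ) : phi (k / 2) = if Even k then 0 else 1 / 2 := by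
  split_ifs with hk
  · obtain ⟨m, hm⟩ := hk
    have : (k : ℝ) / 2 = m := by rw [hm]; push_cast; ring
    rw [this, phi_int]
  · rw [Int.not_even_iff_odd] at hk
    obtain ⟨m, hm⟩ := hk
    have : (k : ℝ) / 2 = m + 1 / 2 := by rw [hm]; push_cast; ring
    rw [this]
    have h1 : phi (m + 1 / 2) = phi (1 / 2) := by
      rw [phi_norm, phi_norm, AddCircle.coe_add]
      have : ((m : ℝ) : UnitAddCircle) = 0 := by
        rw [AddCircle.coe_eq_zero_iff]
        exact ⟨m, by simp⟩
      rw [this, zero_add]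
    rw [h1]
    unfold phi
    rw [abs_sub_round_eq_min, Int.fract_eq_self.2 ⟨by norm_num, by norm_num⟩]
    norm_num

lemma term_nonneg (x : ℝ) (n : ℕ) : 0 ≤ (3 / 4 : ℝ) ^ n * phi (4 ^ n * x) :=
  mul_nonneg (by positivity) (phi_nonneg _)

lemma term_le (x : ℝ) (n : ℕ) : (3 / 4 : ℝ) ^ n * phi (4 ^ n * x) ≤ 1 / 2 * (3 / 4) ^ n := by
  rw [mul_comm]
  exact mul_le_mul_of_nonneg_right (phi_le _) (by positivity)

lemma summable_bound : Summable fun n : ℕ => (1 / 2 : ℝ) * (3 / 4) ^ n :=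
  (summable_geometric_of_lt_one (by norm_num) (by norm_num)).mul_left _

lemma summable_h (x : ℝ) : Summable fun n : ℕ => (3 / 4 : ℝ) ^ n * phi (4 ^ n * x) :=
  Summable.of_nonneg_of_le (term_nonneg x) (term_le x) summable_bound

lemma h_cont : Continuous h := by
  unfold h
  refine continuous_tsum (fun n => ?_) summable_bound (fun n x => ?_)
  · exact continuous_const.mul (phi_cont.comp (continuous_const.mul continuous_id))
  · rw [Real.norm_eq_abs, abs_of_nonneg (term_nonneg x n)]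
    exact term_le x n

lemma h_nonneg (x : ℝ) : 0 ≤ h x := tsum_nonneg (term_nonneg x)

lemma h_le (x : ℝ) : h x ≤ 2 := by
  refine ((summable_h x).tsum_le_tsum (term_le x) summable_bound).trans ?_
  rw [tsum_mul_left, tsum_geometric_of_lt_one (by norm_num) (by norm_num)]
  norm_num

lemma h_neg (x : ℝ) : h (-x) = h x := by
  unfold h
  congr 1
  funext n
  rw [mul_neg, phi_neg]

/-- the increments of `h` on the grid of mesh `1 / (2 * 4 ^ N)` -/
lemma h_increment (N : ℕ) (k : ℤ) :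
    (3 / 4 : ℝ) ^ N / 4 ≤ |h ((k + 1 : ℤ) / (2 * 4 ^ N)) - h (k / (2 * 4 ^ N))| := by
  have htail : ∀ (j : ℤ) (n : ℕ), N + 1 ≤ n → phi (4 ^ n * (j / (2 * 4 ^ N))) = 0 := by
    intro j n hn
    obtain ⟨m, rfl⟩ := Nat.exists_eq_add_of_le hn
    have : (4 : ℝ) ^ (N + 1 + m) * (j / (2 * 4 ^ N)) = ((2 * 4 ^ m * j : ℤ) : ℝ) := by
      push_cast
      rw [pow_add, pow_add]
      field_simp
      ring
    rw [this, phi_int]
  have hfin : ∀ j : ℤ, h (j / (2 * 4 ^ N)) =
      ∑ n ∈ Finset.range (N + 1), (3 / 4 : ℝ) ^ n * phi (4 ^ n * (j / (2 * 4 ^ N))) := by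
    intro j
    unfold h
    refine tsum_eq_sum fun n hn => ?_
    rw [Finset.mem_range, not_lt] at hn
    rw [htail j n hn, mul_zero]
  rw [hfin, hfin, ← Finset.sum_sub_distrib, Finset.sum_range_succ]
  have hN : ∀ j : ℤ, (4 : ℝ) ^ N * (j / (2 * 4 ^ N)) = j / 2 := by
    intro j; field_simp
  have h1 : |(3 / 4 : ℝ) ^ N * phi (4 ^ N * ((k + 1 : ℤ) / (2 * 4 ^ N))) -
      (3 / 4 : ℝ) ^ N * phi (4 ^ N * (k / (2 * 4 ^ N)))| = (3 / 4 : ℝ) ^ N / 2 := by
    rw [hN, hN, phi_half, phi_half, ← mul_sub, abs_mul, abs_of_pos (by positivity)]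
    by_cases hk : Even k
    · rw [if_pos hk, if_neg (by rw [Int.even_add_one]; simpa using hk)]
      norm_num
      ring
    · rw [if_neg hk, if_pos (by rw [Int.even_add_one]; exact hk)]
      norm_num
      ring
  have h2 : |∑ n ∈ Finset.range N, ((3 / 4 : ℝ) ^ n * phi (4 ^ n * ((k + 1 : ℤ) / (2 * 4 ^ N))) -
      (3 / 4 : ℝ) ^ n * phi (4 ^ n * (k / (2 * 4 ^ N))))| ≤ (3 / 4 : ℝ) ^ N / 4 := by
    refine (Finset.abs_sum_le_sum_abs _ _).trans ?_
    have h3 : ∀ n ∈ Finset.range N, |(3 / 4 : ℝ) ^ n * phi (4 ^ n * ((k + 1 : ℤ) / (2 * 4 ^ N))) -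
        (3 / 4 : ℝ) ^ n * phi (4 ^ n * (k / (2 * 4 ^ N)))| ≤ 3 ^ n / (2 * 4 ^ N) := by
      intro n _
      rw [← mul_sub, abs_mul, abs_of_pos (by positivity)]
      have h4 := phi_lip (4 ^ n * ((k + 1 : ℤ) / (2 * 4 ^ N))) (4 ^ n * (k / (2 * 4 ^ N)))
      have h5 : (4 : ℝ) ^ n * ((k + 1 : ℤ) / (2 * 4 ^ N)) - 4 ^ n * (k / (2 * 4 ^ N)) =
          4 ^ n / (2 * 4 ^ N) := by
        push_cast
        ring
      rw [h5, abs_of_pos (by positivity : (0 : ℝ) < 4 ^ n / (2 * 4 ^ N))] at h4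
      calc _ ≤ (3 / 4 : ℝ) ^ n * (4 ^ n / (2 * 4 ^ N)) := by gcongr
        _ = 3 ^ n / (2 * 4 ^ N) := by rw [div_pow]; field_simp
    refine (Finset.sum_le_sum h3).trans ?_
    rw [← Finset.sum_div]
    have h6 : ∑ n ∈ Finset.range N, (3 : ℝ) ^ n ≤ 3 ^ N / 2 := by
      rw [geom_sum_eq (by norm_num)]
      have : (0 : ℝ) < 3 ^ N := by positivity
      norm_num
      linarith
    calc (∑ n ∈ Finset.range N, (3 : ℝ) ^ n) / (2 * 4 ^ N) ≤ (3 ^ N / 2) / (2 * 4 ^ N) := by gcongr
      _ = (3 / 4 : ℝ) ^ N / 4 := by rw [div_pow]; field_simp; norm_num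
  have h7 := abs_sub_abs_le_abs_sub
    ((3 / 4 : ℝ) ^ N * phi (4 ^ N * ((k + 1 : ℤ) / (2 * 4 ^ N))) -
      (3 / 4 : ℝ) ^ N * phi (4 ^ N * (k / (2 * 4 ^ N))))
    (-∑ n ∈ Finset.range N, ((3 / 4 : ℝ) ^ n * phi (4 ^ n * ((k + 1 : ℤ) / (2 * 4 ^ N))) -
      (3 / 4 : ℝ) ^ n * phi (4 ^ n * (k / (2 * 4 ^ N)))))
  rw [h1, abs_neg, sub_neg_eq_add, add_comm ((3 / 4 : ℝ) ^ N * _ - _)] at h7
  have h8 : (0 : ℝ) < (3 / 4) ^ N := by positivity
  linarith

theorem h_variation {a b : ℝ} (hab : a < b) : eVariationOn h (Icc a b) = ⊤ := by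
  by_contra hne
  obtain ⟨V, hV⟩ : ∃ V : ℝ, V = (eVariationOn h (Icc a b)).toReal := ⟨_, rfl⟩
  have hbound : ∀ N : ℕ, (2 * 4 ^ N * (b - a) - 2) * ((3 / 4 : ℝ) ^ N / 4) ≤ V := by
    intro N
    obtain ⟨k0, hk0⟩ : ∃ k0 : ℤ, k0 = ⌈2 * 4 ^ N * a⌉ := ⟨_, rfl⟩
    obtain ⟨k1, hk1⟩ : ∃ k1 : ℤ, k1 = ⌊2 * 4 ^ N * b⌋ := ⟨_, rfl⟩
    have h0 : (k0 : ℝ) < 2 * 4 ^ N * a + 1 := by rw [hk0]; exact Int.ceil_lt_add_one _
    have h0' : 2 * 4 ^ N * a ≤ k0 := by rw [hk0]; exact Int.le_ceil _
    have h1 : 2 * 4 ^ N * b < (k1 : ℝ) + 1 := by rw [hk1]; exact Int.lt_floor_add_one _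
    have h1' : (k1 : ℝ) ≤ 2 * 4 ^ N * b := by rw [hk1]; exact Int.floor_le _
    have hV0 : 0 ≤ V := by rw [hV]; exact ENNReal.toReal_nonneg
    rcases lt_or_ge k1 k0 with hlt | hge
    · have h2 : (k1 : ℝ) + 1 ≤ k0 := by exact_mod_cast hlt
      have h3 : 2 * 4 ^ N * (b - a) - 2 ≤ 0 := by linarith
      exact (mul_nonpos_of_nonpos_of_nonneg h3 (by positivity)).trans hV0
    · obtain ⟨m, hm⟩ := Int.eq_ofNat_of_zero_le (sub_nonneg.2 hge)
      have hsum := eVariationOn.sum_le_of_monotoneOn_Iic (f := h) (s := Icc a b) (n := m)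
        (u := fun i : ℕ => ((k0 + i : ℤ) : ℝ) / (2 * 4 ^ N)) (by
          intro i _ j _ hij
          have : (i : ℝ) ≤ j := by exact_mod_cast hij
          simp only
          push_cast
          gcongr) (by
          intro i hi
          have hi' : (i : ℝ) ≤ m := by exact_mod_cast hi
          have hm' : (k1 : ℝ) - k0 = m := by exact_mod_cast hm
          constructor
          · rw [le_div_iff₀ (by positivity)]
            push_cast
            have : (0 : ℝ) ≤ i := by positivity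
            linarith
          · rw [div_le_iff₀ (by positivity)]
            push_cast
            linarith)
      have hterm : ∀ i ∈ Finset.range m, ENNReal.ofReal ((3 / 4 : ℝ) ^ N / 4) ≤
          edist (h (((k0 + (i + 1 : ℕ) : ℤ) : ℝ) / (2 * 4 ^ N)))
            (h (((k0 + i : ℤ) : ℝ) / (2 * 4 ^ N))) := by
        intro i _
        rw [edist_dist, Real.dist_eq]
        apply ENNReal.ofReal_le_ofReal
        have h4 := h_increment N (k0 + i)
        have h5 : ((k0 + (i + 1 : ℕ) : ℤ) : ℝ) = ((k0 + i + 1 : ℤ) : ℝ) := by push_cast; ring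
        rw [h5]
        exact h4
      have h6 := (Finset.sum_le_sum hterm).trans hsum
      rw [Finset.sum_const, Finset.card_range, nsmul_eq_mul] at h6
      have h7 := ENNReal.toReal_mono hne h6
      rw [ENNReal.toReal_mul, ENNReal.toReal_ofReal (by positivity), ← hV] at h7
      refine le_trans (mul_le_mul_of_nonneg_right ?_ (by positivity)) h7
      have hm' : (k1 : ℝ) - k0 = m := by exact_mod_cast hm
      simp only [ENNReal.toReal_natCast]
      linarith
  -- the left hand side tends to infinity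
  obtain ⟨N, hN⟩ := pow_unbounded_of_one_lt ((V + 1) * 4 / (b - a)) (by norm_num : (1 : ℝ) < 3)
  have h1 := hbound N
  rw [div_lt_iff₀ (by linarith)] at hN
  have h2 : (2 * 4 ^ N * (b - a) - 2) * ((3 / 4 : ℝ) ^ N / 4) =
      3 ^ N * (b - a) / 2 - (3 / 4 : ℝ) ^ N / 2 := by
    rw [div_pow]; field_simp; ring
  have h3 : (3 / 4 : ℝ) ^ N ≤ 1 := pow_le_one₀ (by norm_num) (by norm_num)
  have hV0 : 0 ≤ V := by rw [hV]; exact ENNReal.toReal_nonneg
  rw [h2] at h1
  linarith

/-- the composition with a continuous function which is not constant has infinite variation -/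
theorem comp_variation {x : ℝ → ℝ} {a b : ℝ} (hab : a ≤ b) (hx : ContinuousOn x (Icc a b))
    (hlt : x a < x b) : eVariationOn (fun t => h (x t)) (Icc a b) = ⊤ := by
  obtain ⟨S, hS⟩ : ∃ S : ℝ → Set ℝ, S = fun y => Icc a b ∩ x ⁻¹' Ici y := ⟨_, rfl⟩
  have hSc : ∀ y, IsClosed (S y) := by
    intro y
    rw [hS]
    exact hx.preimage_isClosed_of_isClosed isClosed_Icc isClosed_Ici
  have hSb : ∀ y, BddBelow (S y) := fun y => ⟨a, fun t ht => by
    rw [hS] at ht; exact ht.1.1⟩
  have hSn : ∀ y ∈ Icc (x a) (x b), (S y).Nonempty := fun y hy => ⟨b, by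
    rw [hS]; exact ⟨⟨hab, le_rfl⟩, hy.2⟩⟩
  have hτ : ∀ y ∈ Icc (x a) (x b), sInf (S y) ∈ Icc a b ∧ x (sInf (S y)) = y := by
    intro y hy
    have h1 : sInf (S y) ∈ S y := (hSc y).csInf_mem (hSn y hy) (hSb y)
    have h2 : sInf (S y) ∈ Icc a b ∧ y ≤ x (sInf (S y)) := by
      rw [hS] at h1 ⊢; exact h1
    refine ⟨h2.1, ?_⟩
    have h3 := intermediate_value_Icc h2.1.1 (hx.mono (Icc_subset_Icc le_rfl h2.1.2))
    obtain ⟨t, ht, hty⟩ := h3 ⟨hy.1, h2.2⟩
    have h4 : t ∈ S y := by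
      rw [hS]; exact ⟨⟨ht.1, ht.2.trans h2.1.2⟩, hty.ge⟩
    have h5 : sInf (S y) ≤ t := csInf_le (hSb y) h4
    rw [← le_antisymm ht.2 h5] 
    exact hty
  have hmono : MonotoneOn (fun y => sInf (S y)) (Icc (x a) (x b)) := by
    intro y _ z hz hyz
    refine csInf_le_csInf (hSb y) (hSn z hz) ?_
    rw [hS]
    exact inter_subset_inter_right _ (preimage_mono (Ici_subset_Ici.2 hyz))
  have h1 := eVariationOn.comp_le_of_monotoneOn (fun t => h (x t)) (fun y => sInf (S y)) hmono
    (fun y hy => (hτ y hy).1)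
  have h2 : eVariationOn ((fun t => h (x t)) ∘ fun y => sInf (S y)) (Icc (x a) (x b)) =
      eVariationOn h (Icc (x a) (x b)) := by
    refine eVariationOn.eq_of_eqOn fun y hy => ?_
    simp only [Function.comp_apply, (hτ y hy).2]
  rw [h2, h_variation hlt] at h1
  exact top_le_iff.1 h1

theorem const_of_variation {x : ℝ → ℝ} (hx : ContinuousOn x (Icc 0 1))
    (hv : eVariationOn (fun t => h (x t)) (Icc 0 1) ≠ ⊤) : ∀ t ∈ Icc (0 : ℝ) 1, x t = x 0 := by
  intro t ht
  by_contra hne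
  apply hv
  have hsub : Icc 0 t ⊆ Icc (0 : ℝ) 1 := Icc_subset_Icc le_rfl ht.2
  rcases lt_or_gt_of_ne hne with hlt | hgt
  · have h1 := comp_variation (x := fun t => -x t) ht.1 (hx.mono hsub).neg (by linarith)
    simp only [h_neg] at h1
    exact top_le_iff.1 (h1.symm.le.trans (eVariationOn.mono _ hsub))
  · have h1 := comp_variation ht.1 (hx.mono hsub) hgt
    exact top_le_iff.1 (h1.symm.le.trans (eVariationOn.mono _ hsub))

theorem sub_variation {f g : ℝ → ℝ} {s : Set ℝ} (hf : eVariationOn f s ≠ ⊤)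
    (hg : eVariationOn g s ≠ ⊤) : eVariationOn (fun t => f t - g t) s ≠ ⊤ := by
  refine ne_top_of_le_ne_top (ENNReal.add_ne_top.2 ⟨hf, hg⟩) ?_
  refine iSup_le fun p => ?_
  have h1 := eVariationOn.sum_le (f := f) (n := p.1) p.2.2.1 p.2.2.2
  have h2 := eVariationOn.sum_le (f := g) (n := p.1) p.2.2.1 p.2.2.2
  refine le_trans ?_ (add_le_add h1 h2)
  rw [← Finset.sum_add_distrib]
  refine Finset.sum_le_sum fun i _ => ?_
  rw [edist_dist, edist_dist, edist_dist, ← ENNReal.ofReal_add dist_nonneg dist_nonneg]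
  apply ENNReal.ofReal_le_ofReal
  rw [Real.dist_eq, Real.dist_eq, Real.dist_eq]
  have : f (p.2.1 (i + 1)) - g (p.2.1 (i + 1)) - (f (p.2.1 i) - g (p.2.1 i)) =
    (f (p.2.1 (i + 1)) - f (p.2.1 i)) - (g (p.2.1 (i + 1)) - g (p.2.1 i)) := by ring
  rw [this]
  exact abs_sub _ _

/-! ### The embedding in dimension at least two -/

variable {n : ℕ}

/-- add `h` of the previous coordinate to each coordinate but the first one -/
noncomputable def G1 (x : Fin n → ℝ) : Fin n → ℝ := fun i =>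
  if i.1 = 0 then x i else x i + h (x ⟨i.1 - 1, by omega⟩)

/-- add `h` of the last coordinate to the first one -/
noncomputable def G2 (y : Fin n → ℝ) : Fin n → ℝ := fun i =>
  if i.1 = 0 then y i + h (y ⟨n - 1, by have := i.2; omega⟩) else y i

/-- the inverse of `G2` -/
noncomputable def G2i (y : Fin n → ℝ) : Fin n → ℝ := fun i =>
  if i.1 = 0 then y i - h (y ⟨n - 1, by have := i.2; omega⟩) else y i

/-- extension by zero -/
def ext0 (y : Fin n → ℝ) (k : ℕ) : ℝ := if hk : k < n then y ⟨k, hk⟩ else 0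

/-- the inverse of `G1`, by recursion -/
noncomputable def inv1 (y : ℕ → ℝ) : ℕ → ℝ
  | 0 => y 0
  | k + 1 => y (k + 1) - h (inv1 y k)

/-- the inverse of `G1` -/
noncomputable def G1i (y : Fin n → ℝ) : Fin n → ℝ := fun i => inv1 (ext0 y) i

theorem G1_cont : Continuous (G1 : (Fin n → ℝ) → Fin n → ℝ) := by
  refine continuous_pi fun i => ?_
  unfold G1
  split_ifs
  · exact continuous_apply _
  · exact (continuous_apply _).add (h_cont.comp (continuous_apply _))

theorem G2_cont : Continuous (G2 : (Fin n → ℝ) → Fin n → ℝ) := by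
  refine continuous_pi fun i => ?_
  unfold G2
  split_ifs
  · exact (continuous_apply _).add (h_cont.comp (continuous_apply _))
  · exact continuous_apply _

theorem G2i_cont : Continuous (G2i : (Fin n → ℝ) → Fin n → ℝ) := by
  refine continuous_pi fun i => ?_
  unfold G2i
  split_ifs
  · exact (continuous_apply _).sub (h_cont.comp (continuous_apply _))
  · exact continuous_apply _

theorem ext0_cont (k : ℕ) : Continuous fun y : Fin n → ℝ => ext0 y k := by
  unfold ext0
  split_ifs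
  · exact continuous_apply _
  · exact continuous_const

theorem inv1_cont (k : ℕ) : Continuous fun y : Fin n → ℝ => inv1 (ext0 y) k := by
  induction k with
  | zero => exact ext0_cont 0
  | succ k ih => exact (ext0_cont (k + 1)).sub (h_cont.comp ih)

theorem G1i_cont : Continuous (G1i : (Fin n → ℝ) → Fin n → ℝ) :=
  continuous_pi fun i => inv1_cont i.1

theorem G1i_G1 (x : Fin n → ℝ) : G1i (G1 x) = x := by
  have key : ∀ k (hk : k < n), inv1 (ext0 (G1 x)) k = x ⟨k, hk⟩ := by
    intro k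
    induction k with
    | zero =>
      intro hk
      change ext0 (G1 x) 0 = _
      rw [ext0, dif_pos hk, G1, if_pos rfl]
    | succ k ih =>
      intro hk
      change ext0 (G1 x) (k + 1) - h (inv1 (ext0 (G1 x)) k) = _
      rw [ih (by omega), ext0, dif_pos hk, G1, if_neg (Nat.succ_ne_zero k)]
      simp
  funext i
  exact key i.1 i.2

theorem G2i_G2 (hn : 2 ≤ n) (y : Fin n → ℝ) : G2i (G2 y) = y := by
  have hlast : G2 y ⟨n - 1, by omega⟩ = y ⟨n - 1, by omega⟩ := by
    unfold G2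
    rw [if_neg (by simp only; omega)]
  funext i
  unfold G2i
  rw [hlast]
  by_cases hi : i.1 = 0
  · rw [if_pos hi]
    unfold G2
    rw [if_pos hi]
    ring
  · rw [if_neg hi]
    unfold G2
    rw [if_neg hi]

/-- the Euclidean space -/
abbrev Eu (n : ℕ) := EuclideanSpace ℝ (Fin n)

/-- the embedding -/
noncomputable def F (n : ℕ) (x : Eu n) : Eu n :=
  WithLp.toLp 2 (fun i => (1 / (6 * (n : ℝ))) * G2 (G1 fun i => Real.arctan (x i)) i)

theorem arctan_embedding : IsEmbedding Real.arctan := by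
  have h1 : (range Real.arctan).OrdConnected := by
    rw [Real.range_arctan]; exact ordConnected_Ioo
  exact Real.arctan_strictMono.isEmbedding_of_ordConnected h1

theorem F_embedding (hn : 2 ≤ n) : IsEmbedding (F n) := by
  have hn0 : (n : ℝ) ≠ 0 := by
    have : n ≠ 0 := by omega
    exact_mod_cast this
  have h1 : IsEmbedding (fun x : Fin n → ℝ => fun i => Real.arctan (x i)) :=
    IsEmbedding.piMap fun _ => arctan_embedding
  have h2 : IsEmbedding (G1 : (Fin n → ℝ) → Fin n → ℝ) :=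
    Function.LeftInverse.isEmbedding G1i_G1 G1i_cont G1_cont
  have h3 : IsEmbedding (G2 : (Fin n → ℝ) → Fin n → ℝ) :=
    Function.LeftInverse.isEmbedding (G2i_G2 hn) G2i_cont G2_cont
  have h4 : IsEmbedding (fun y : Fin n → ℝ => fun i => (1 / (6 * (n : ℝ))) * y i) := by
    refine Function.LeftInverse.isEmbedding (f := fun y : Fin n → ℝ => fun i => (6 * n) * y i)
      (fun y => ?_) (by fun_prop) (by fun_prop)
    funext i
    field_simp
  have h5 : IsEmbedding (WithLp.toLp 2 : (Fin n → ℝ) → Eu n) :=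
    (PiLp.homeomorph 2 (fun _ : Fin n => ℝ)).symm.isEmbedding
  have h6 : IsEmbedding (fun x : Eu n => (WithLp.ofLp x : Fin n → ℝ)) :=
    (PiLp.homeomorph 2 (fun _ : Fin n => ℝ)).isEmbedding
  exact h5.comp (h4.comp (h3.comp (h2.comp (h1.comp h6))))

theorem arctan_abs (x : ℝ) : |Real.arctan x| ≤ 2 := by
  have h1 := Real.arctan_lt_pi_div_two x
  have h2 := Real.neg_pi_div_two_lt_arctan x
  have h3 := Real.pi_le_four
  rw [abs_le]
  constructor <;> linarith

theorem G1_abs {x : Fin n → ℝ} (hx : ∀ i, |x i| ≤ 2) (i : Fin n) : |G1 x i| ≤ 4 := by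
  unfold G1
  split_ifs
  · linarith [hx i]
  · have h1 := h_nonneg (x ⟨i.1 - 1, by omega⟩)
    have h2 := h_le (x ⟨i.1 - 1, by omega⟩)
    have h3 := abs_le.1 (hx i)
    rw [abs_le]
    constructor <;> linarith [h3.1, h3.2]

theorem G2_abs {x : Fin n → ℝ} (hx : ∀ i, |x i| ≤ 4) (i : Fin n) : |G2 x i| ≤ 6 := by
  unfold G2
  split_ifs
  · have h1 := h_nonneg (x ⟨n - 1, by omega⟩)
    have h2 := h_le (x ⟨n - 1, by omega⟩)
    have h3 := abs_le.1 (hx i)
    rw [abs_le]
    constructor <;> linarith [h3.1, h3.2]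
  · linarith [hx i]

theorem F_norm (hn : 2 ≤ n) (x : Eu n) : ‖F n x‖ ≤ 1 := by
  have hn0 : (0 : ℝ) < n := by
    have : 0 < n := by omega
    exact_mod_cast this
  rw [EuclideanSpace.norm_eq, Real.sqrt_le_one]
  have h1 : ∀ i, ‖F n x i‖ ^ 2 ≤ 1 / n := by
    intro i
    have h2 := G2_abs (x := G1 fun i => Real.arctan (x i)) (G1_abs fun i => arctan_abs _) i
    change ‖(1 / (6 * (n : ℝ))) * G2 (G1 fun i => Real.arctan (x i)) i‖ ^ 2 ≤ 1 / n
    rw [norm_mul, Real.norm_eq_abs, Real.norm_eq_abs, abs_of_pos (by positivity)]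
    have h3 : 1 / (6 * (n : ℝ)) * |G2 (G1 fun i => Real.arctan (x i)) i| ≤ 1 / n := by
      calc _ ≤ 1 / (6 * (n : ℝ)) * 6 := by gcongr
        _ = 1 / n := by field_simp
    have h4 : (1 : ℝ) / n ≤ 1 := by
      rw [div_le_one hn0]
      have : 1 ≤ n := by omega
      exact_mod_cast this
    calc _ ≤ (1 / (n : ℝ)) ^ 2 := by gcongr
      _ = (1 / n) * (1 / n) := by ring
      _ ≤ (1 / n) * 1 := by gcongr
      _ = 1 / n := mul_one _
  calc ∑ i, ‖F n x i‖ ^ 2 ≤ ∑ _i : Fin n, 1 / (n : ℝ) := Finset.sum_le_sum fun i _ => h1 i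
    _ = 1 := by
      rw [Finset.sum_const, Finset.card_univ, Fintype.card_fin, nsmul_eq_mul]
      field_simp

theorem coord_lip (i : Fin n) : LipschitzWith 1 fun x : Eu n => x i := by
  refine LipschitzWith.of_dist_le_mul fun x y => ?_
  rw [NNReal.coe_one, one_mul, dist_eq_norm, dist_eq_norm]
  exact PiLp.norm_apply_le (x - y) i

theorem arctan_lip : LipschitzWith 1 Real.arctan := by
  refine lipschitzWith_of_nnnorm_deriv_le Real.differentiable_arctan fun x => ?_
  rw [Real.deriv_arctan, ← NNReal.coe_le_coe, coe_nnnorm, Real.norm_eq_abs,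
    abs_of_pos (by positivity), NNReal.coe_one]
  rw [div_le_one (by positivity)]
  nlinarith [sq_nonneg x]

theorem lip_variation {α β : Type*} [PseudoEMetricSpace α] [PseudoEMetricSpace β] {f : α → β}
    {C : NNReal} (hf : LipschitzWith C f) {g : ℝ → α} {s : Set ℝ} (hg : eVariationOn g s ≠ ⊤) :
    eVariationOn (fun t => f (g t)) s ≠ ⊤ := by
  have h1 := (hf.lipschitzOnWith (s := univ)).comp_eVariationOn_le (g := g) (s := s)
    (fun _ _ => mem_univ _)
  exact ne_top_of_le_ne_top (ENNReal.mul_ne_top ENNReal.coe_ne_top hg) h1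

/-- a rectifiable curve whose image has finite length is constant -/
theorem F_curve (hn : 2 ≤ n) {γ : ℝ → Eu n} (hγ : ContinuousOn γ (Icc 0 1))
    (hv : eVariationOn γ (Icc 0 1) ≠ ⊤)
    (hF : eVariationOn (fun t => F n (γ t)) (Icc 0 1) ≠ ⊤) :
    ∀ t ∈ Icc (0 : ℝ) 1, γ t = γ 0 := by
  have hn0 : (n : ℝ) ≠ 0 := by
    have : n ≠ 0 := by omega
    exact_mod_cast this
  obtain ⟨a, ha⟩ : ∃ a : ℝ → Fin n → ℝ, a = fun t i => Real.arctan (γ t i) := ⟨_, rfl⟩
  have hac : ∀ i, ContinuousOn (fun t => a t i) (Icc 0 1) := by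
    intro i
    rw [ha]
    exact Real.continuous_arctan.comp_continuousOn
      ((coord_lip i).continuous.comp_continuousOn hγ)
  have hav : ∀ i, eVariationOn (fun t => a t i) (Icc 0 1) ≠ ⊤ := by
    intro i
    rw [ha]
    exact lip_variation arctan_lip (lip_variation (coord_lip i) hv)
  have hz : ∀ i, eVariationOn (fun t => G2 (G1 (a t)) i) (Icc 0 1) ≠ ⊤ := by
    intro i
    have h1 := lip_variation (coord_lip i) hF
    have h2 : LipschitzWith (Real.nnabs (6 * n)) fun x : ℝ => (6 * n) * x := by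
      refine LipschitzWith.of_dist_le_mul fun x y => ?_
      rw [Real.dist_eq, Real.dist_eq, ← mul_sub, abs_mul]
      rfl
    have h3 := lip_variation h2 h1
    have h4 : (fun t => 6 * (n : ℝ) * (F n (γ t)) i) = fun t => G2 (G1 (a t)) i := by
      funext t
      rw [ha]
      change 6 * (n : ℝ) * ((1 / (6 * (n : ℝ))) * G2 (G1 fun i => Real.arctan (γ t i)) i) = _
      field_simp
    rwa [h4] at h3
  -- all coordinates but the last one are constant
  have hconst : ∀ i : Fin n, i.1 + 1 < n → ∀ t ∈ Icc (0 : ℝ) 1, a t i = a 0 i := by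
    intro i hi
    apply const_of_variation (hac i)
    have h1 := sub_variation (hz ⟨i.1 + 1, hi⟩) (hav ⟨i.1 + 1, hi⟩)
    have h2 : (fun t => G2 (G1 (a t)) ⟨i.1 + 1, hi⟩ - a t ⟨i.1 + 1, hi⟩) =
        fun t => h (a t i) := by
      funext t
      unfold G2
      rw [if_neg (Nat.succ_ne_zero _)]
      unfold G1
      rw [if_neg (Nat.succ_ne_zero _)]
      simp
    rwa [h2] at h1
  have hlast : ∀ t ∈ Icc (0 : ℝ) 1, G1 (a t) ⟨n - 1, by omega⟩ = G1 (a 0) ⟨n - 1, by omega⟩ := by
    refine const_of_variation (x := fun t => G1 (a t) ⟨n - 1, by omega⟩) ?_ ?_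
    · have h1 : ContinuousOn (fun t => G1 (a t)) (Icc 0 1) :=
        G1_cont.comp_continuousOn (continuousOn_pi.2 hac)
      exact continuousOn_pi.1 h1 _
    · have h1 := sub_variation (hz ⟨0, by omega⟩) (hav ⟨0, by omega⟩)
      have h2 : (fun t => G2 (G1 (a t)) ⟨0, by omega⟩ - a t ⟨0, by omega⟩) =
          fun t => h (G1 (a t) ⟨n - 1, by omega⟩) := by
        funext t
        unfold G2
        rw [if_pos rfl]
        have h3 : G1 (a t) ⟨0, by omega⟩ = a t ⟨0, by omega⟩ := by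
          unfold G1
          rw [if_pos rfl]
        rw [h3]
        ring
      rwa [h2] at h1
  have hlast' : ∀ t ∈ Icc (0 : ℝ) 1, a t ⟨n - 1, by omega⟩ = a 0 ⟨n - 1, by omega⟩ := by
    intro t ht
    have h1 := hlast t ht
    unfold G1 at h1
    rw [if_neg (by simp only; omega), if_neg (by simp only; omega)] at h1
    have h2 := hconst ⟨n - 1 - 1, by omega⟩ (by simp only; omega) t ht
    rw [h2] at h1
    linarith
  intro t ht
  ext i
  have h1 : a t i = a 0 i := by
    by_cases hi : i.1 + 1 < n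
    · exact hconst i hi t ht
    · have : i = ⟨n - 1, by omega⟩ := Fin.ext (by simp only; omega)
      rw [this]
      exact hlast' t ht
  rw [ha] at h1
  exact Real.arctan_injective h1

/-! ### Dimension one -/

section one

variable {W : Set ℝ}

/-- the measure of the part of `W` below `t` -/
noncomputable def mm (W : Set ℝ) (t : ℝ) : ℝ := (volume (W ∩ Iio t)).toReal

theorem mm_fin (hv : volume W ≤ 1) (t : ℝ) : volume (W ∩ Iio t) ≠ ⊤ :=
  ne_top_of_le_ne_top ENNReal.one_ne_top ((measure_mono inter_subset_left).trans hv)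

theorem mm_mono (hv : volume W ≤ 1) {s t : ℝ} (hst : s ≤ t) : mm W s ≤ mm W t :=
  ENNReal.toReal_mono (mm_fin hv t)
    (measure_mono (inter_subset_inter_right _ (Iio_subset_Iio hst)))

theorem mm_nonneg (t : ℝ) : 0 ≤ mm W t := ENNReal.toReal_nonneg

theorem mm_le (hv : volume W ≤ 1) (t : ℝ) : mm W t ≤ 1 := by
  have h1 := ENNReal.toReal_mono ENNReal.one_ne_top
    ((measure_mono (inter_subset_left (s := W) (t := Iio t))).trans hv)
  rw [ENNReal.toReal_one] at h1
  exact h1

theorem mm_sub (hv : volume W ≤ 1) {s t : ℝ} (hst : s ≤ t) (h : Ico s t ⊆ W) :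
    mm W t - mm W s = t - s := by
  have h1 : W ∩ Iio t = (W ∩ Iio s) ∪ Ico s t := by
    ext x
    constructor
    · rintro ⟨h1, h2⟩
      rcases lt_or_ge x s with h3 | h3
      · exact Or.inl ⟨h1, h3⟩
      · exact Or.inr ⟨h3, h2⟩
    · rintro (⟨h1, h2⟩ | h2)
      · exact ⟨h1, lt_of_lt_of_le h2 hst⟩
      · exact ⟨h h2, h2.2⟩
  have hd : Disjoint (W ∩ Iio s) (Ico s t) := by
    rw [Set.disjoint_left]
    rintro x ⟨-, h2⟩ h3
    exact absurd h3.1 (not_le.2 h2)
  have h2 : volume (W ∩ Iio t) = volume (W ∩ Iio s) + ENNReal.ofReal (t - s) := by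
    rw [h1, measure_union hd measurableSet_Ico, Real.volume_Ico]
  unfold mm
  rw [h2, ENNReal.toReal_add (mm_fin hv s) ENNReal.ofReal_ne_top,
    ENNReal.toReal_ofReal (by linarith)]
  ring

theorem mm_local (hv : volume W ≤ 1) (hW : IsOpen W) {x : ℝ} (hx : x ∈ W) :
    mm W =ᶠ[𝓝 x] fun s => mm W x + (s - x) := by
  obtain ⟨r, hr, hball⟩ := Metric.isOpen_iff.1 hW x hx
  filter_upwards [Metric.ball_mem_nhds x hr] with s hs
  rw [Metric.mem_ball, Real.dist_eq, abs_lt] at hs
  rcases le_total x s with h1 | h1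
  · have h2 := mm_sub hv h1 (fun y hy => hball (by
      rw [Metric.mem_ball, Real.dist_eq, abs_lt]
      constructor <;> linarith [hy.1, hy.2, hs.2]))
    linarith
  · have h2 := mm_sub hv h1 (fun y hy => hball (by
      rw [Metric.mem_ball, Real.dist_eq, abs_lt]
      constructor <;> linarith [hy.1, hy.2, hs.1]))
    linarith

theorem mm_strict (hv : volume W ≤ 1) (hW : IsOpen W) {s t : ℝ} (hs : s ∈ W) (hst : s < t) :
    mm W s < mm W t := by
  obtain ⟨r, hr, hball⟩ := Metric.isOpen_iff.1 hW s hs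
  have h1 : 0 < min (r / 2) (t - s) := lt_min (by positivity) (by linarith)
  have h3 : min (r / 2) (t - s) ≤ r / 2 := min_le_left _ _
  have h4 : min (r / 2) (t - s) ≤ t - s := min_le_right _ _
  have h2 := mm_sub hv (s := s) (t := s + min (r / 2) (t - s)) (by linarith)
    (fun y hy => hball (by
      rw [Metric.mem_ball, Real.dist_eq, abs_lt]
      constructor <;> linarith [hy.1, hy.2]))
  have h5 := mm_mono hv (W := W) (s := s + min (r / 2) (t - s)) (t := t) (by linarith)
  linarith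

theorem mm_embedding (hv : volume W ≤ 1) (hW : IsOpen W) :
    IsEmbedding fun x : W => mm W x := by
  have hopen : IsOpenMap fun x : W => mm W x := by
    rw [isOpenMap_iff_nhds_le]
    rintro ⟨x, hx⟩
    have h1 : map (fun y : W => mm W y) (𝓝 ⟨x, hx⟩) = 𝓝 (mm W x) := by
      have h2 : (fun y : W => mm W y) = mm W ∘ Subtype.val := rfl
      rw [h2, ← Filter.map_map, hW.isOpenEmbedding_subtypeVal.map_nhds_eq,
        Filter.map_congr (mm_local hv hW hx)]
      have h3 : (fun s => mm W x + (s - x)) = Homeomorph.addRight (mm W x - x) := by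
        funext s
        simp only [Homeomorph.coe_addRight]
        ring
      rw [h3, Homeomorph.map_nhds_eq]
      congr 1
      simp
    exact h1.ge
  refine (Topology.IsOpenEmbedding.of_continuous_injective_isOpenMap ?_ ?_ hopen).isEmbedding
  · rw [continuous_iff_continuousAt]
    rintro ⟨x, hx⟩
    have h1 : ContinuousAt (mm W) x := by
      rw [continuousAt_congr (mm_local hv hW hx)]
      fun_prop
    exact ContinuousAt.comp (g := mm W) h1 continuous_subtype_val.continuousAt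
  · rintro ⟨x, hx⟩ ⟨y, hy⟩ hxy
    simp only at hxy
    rcases lt_trichotomy x y with h1 | h1 | h1
    · exact absurd hxy (mm_strict hv hW hx h1).ne
    · exact Subtype.ext h1
    · exact absurd hxy (mm_strict hv hW hy h1).ne'

theorem mm_curve (hv : volume W ≤ 1) {g : ℝ → ℝ} (hg : ContinuousOn g (Icc 0 1))
    (hgW : ∀ t ∈ Icc (0 : ℝ) 1, g t ∈ W) : ∀ t ∈ Icc (0 : ℝ) 1,
    mm W (g t) - mm W (g 0) = g t - g 0 := by
  intro t ht
  have hpc : IsPreconnected (g '' Icc 0 1) := isPreconnected_Icc.image g hg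
  have hsub : g '' Icc 0 1 ⊆ W := by
    rintro _ ⟨s, hs, rfl⟩
    exact hgW s hs
  have h0 : g 0 ∈ g '' Icc 0 1 := ⟨0, by simp, rfl⟩
  have h1 : g t ∈ g '' Icc 0 1 := ⟨t, ht, rfl⟩
  rcases le_total (g 0) (g t) with h2 | h2
  · exact mm_sub hv h2 ((Ico_subset_Icc_self.trans (hpc.Icc_subset h0 h1)).trans hsub)
  · have h3 := mm_sub hv h2 ((Ico_subset_Icc_self.trans (hpc.Icc_subset h1 h0)).trans hsub)
    linarith

end one

/-- the first coordinate -/
def c0 (x : Eu 1) : ℝ := x 0

/-- the inverse of the first coordinate -/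
def k0 (t : ℝ) : Eu 1 := WithLp.toLp 2 fun _ => t

theorem k0_c0 (x : Eu 1) : k0 (c0 x) = x := by
  ext i
  rw [Subsingleton.elim i 0]
  rfl

theorem c0_cont : Continuous c0 := (coord_lip 0).continuous

theorem k0_cont : Continuous k0 := by
  unfold k0
  exact (PiLp.continuous_toLp 2 _).comp (continuous_pi fun _ => continuous_id)

theorem c0_embedding : IsEmbedding c0 :=
  Function.LeftInverse.isEmbedding k0_c0 k0_cont c0_cont

theorem k0_embedding : IsEmbedding k0 :=
  Function.LeftInverse.isEmbedding (fun _ => rfl) c0_cont k0_cont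

theorem c0_volume (W : Set ℝ) (hW : MeasurableSet W) : volume (c0 ⁻¹' W) = volume W := by
  have h1 := (volume_preserving_funUnique (Fin 1) ℝ).comp (PiLp.volume_preserving_ofLp (Fin 1))
  exact h1.measure_preimage hW.nullMeasurableSet

theorem k0_norm (t : ℝ) : ‖k0 t‖ = |t| := by
  rw [EuclideanSpace.norm_eq]
  simp [k0, Real.sqrt_sq_eq_abs]

/-- **The sponge problem for topological embeddings.** (1) For every `n ≥ 1` there is `ε > 0` such
that every open set `U` of `ℝⁿ` with volume at most `ε` has an embedding into the unit ball which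
does not decrease the length of any rectifiable curve of `U`. (2) For `n ≥ 2` there is an embedding
of the whole space `ℝⁿ` into the unit ball, such that the image of every rectifiable curve which is
not constant has infinite length. -/
theorem result :
    (∀ n : ℕ, 1 ≤ n → ∃ ε : ℝ, 0 < ε ∧ ∀ U : Set (EuclideanSpace ℝ (Fin n)), IsOpen U →
      volume U ≤ ENNReal.ofReal ε →
      ∃ f : U → Metric.closedBall (0 : EuclideanSpace ℝ (Fin n)) 1, IsEmbedding f ∧
        ∀ γ : ℝ → U, ContinuousOn γ (Icc 0 1) → eVariationOn γ (Icc 0 1) ≠ ⊤ →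
          eVariationOn γ (Icc 0 1) ≤ eVariationOn (fun t => f (γ t)) (Icc 0 1)) ∧
    ∀ n : ℕ, 2 ≤ n → ∃ f : EuclideanSpace ℝ (Fin n) →
      Metric.closedBall (0 : EuclideanSpace ℝ (Fin n)) 1, IsEmbedding f ∧
        ∀ γ : ℝ → EuclideanSpace ℝ (Fin n), ContinuousOn γ (Icc 0 1) →
          eVariationOn γ (Icc 0 1) ≠ ⊤ → (∀ t ∈ Icc (0 : ℝ) 1, γ t = γ 0) ∨
          eVariationOn (fun t => f (γ t)) (Icc 0 1) = ⊤ := by
  have hmain : ∀ n : ℕ, 2 ≤ n → ∃ f : EuclideanSpace ℝ (Fin n) →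
      Metric.closedBall (0 : EuclideanSpace ℝ (Fin n)) 1, IsEmbedding f ∧
        ∀ γ : ℝ → EuclideanSpace ℝ (Fin n), ContinuousOn γ (Icc 0 1) →
          eVariationOn γ (Icc 0 1) ≠ ⊤ → (∀ t ∈ Icc (0 : ℝ) 1, γ t = γ 0) ∨
          eVariationOn (fun t => f (γ t)) (Icc 0 1) = ⊤ := by
    intro n hn
    have hball : ∀ x, F n x ∈ Metric.closedBall (0 : EuclideanSpace ℝ (Fin n)) 1 := fun x => by
      rw [mem_closedBall_zero_iff]; exact F_norm hn x
    refine ⟨fun x => ⟨F n x, hball x⟩,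
      (F_embedding hn).codRestrict _ hball, fun γ hγ hv => ?_⟩
    by_contra hcon
    push Not at hcon
    exact hcon.1.elim fun t ht => ht.2 (F_curve hn hγ hv hcon.2 t ht.1)
  refine ⟨fun n hn => ?_, hmain⟩
  rcases Nat.lt_or_ge n 2 with h1 | h2
  · -- dimension one
    have : n = 1 := by omega
    subst this
    refine ⟨1, one_pos, fun U hU hv => ?_⟩
    rw [ENNReal.ofReal_one] at hv
    obtain ⟨W, hW⟩ : ∃ W : Set ℝ, W = k0 ⁻¹' U := ⟨_, rfl⟩
    have hWo : IsOpen W := by rw [hW]; exact hU.preimage k0_cont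
    have hUW : c0 ⁻¹' W = U := by
      rw [hW]
      ext x
      rw [mem_preimage, mem_preimage, k0_c0]
    have hWv : volume W ≤ 1 := by
      rw [← c0_volume W hWo.measurableSet, hUW]
      exact hv
    have hmem : ∀ x : U, c0 x ∈ W := fun x => hUW.ge x.2
    have he1 : IsEmbedding fun x : U => (⟨c0 x, hmem x⟩ : W) :=
      (c0_embedding.comp IsEmbedding.subtypeVal).codRestrict _ _
    have he2 : IsEmbedding fun x : U => k0 (mm W (c0 x)) :=
      k0_embedding.comp ((mm_embedding hWv hWo).comp he1)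
    have hball : ∀ x : U, k0 (mm W (c0 x)) ∈
        Metric.closedBall (0 : EuclideanSpace ℝ (Fin 1)) 1 := fun x => by
      rw [mem_closedBall_zero_iff, k0_norm, abs_of_nonneg (mm_nonneg _)]
      exact mm_le hWv _
    refine ⟨fun x => ⟨k0 (mm W (c0 x)), hball x⟩, he2.codRestrict _ hball, fun γ hγ _ => ?_⟩
    · have hc : ContinuousOn (fun t => c0 (γ t)) (Icc 0 1) :=
        (c0_cont.comp continuous_subtype_val).comp_continuousOn hγ
      have h3 := mm_curve hWv hc fun t _ => hmem (γ t)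
      refine iSup_le fun p => ?_
      refine le_trans (Finset.sum_le_sum fun i _ => ?_)
        (eVariationOn.sum_le (f := fun t => (⟨k0 (mm W (c0 (γ t))), hball (γ t)⟩ :
          Metric.closedBall (0 : EuclideanSpace ℝ (Fin 1)) 1)) (n := p.1) p.2.2.1 p.2.2.2)
      have h4 := h3 _ (p.2.2.2 (i + 1))
      have h5 := h3 _ (p.2.2.2 i)
      rw [Subtype.edist_eq, Subtype.edist_eq, edist_dist, edist_dist]
      apply le_of_eq
      congr 1
      have hsub : ∀ a b : ℝ, k0 a - k0 b = k0 (a - b) := fun a b => rfl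
      have hl : ‖(γ (p.2.1 (i + 1)) : Eu 1) - (γ (p.2.1 i) : Eu 1)‖ =
          |c0 (γ (p.2.1 (i + 1))) - c0 (γ (p.2.1 i))| := by
        conv_lhs => rw [← k0_c0 ((γ (p.2.1 (i + 1)) : Eu 1)), ← k0_c0 ((γ (p.2.1 i) : Eu 1)),
          hsub, k0_norm]
      rw [dist_eq_norm, dist_eq_norm, hl]
      change _ = ‖k0 (mm W (c0 (γ (p.2.1 (i + 1))))) - k0 (mm W (c0 (γ (p.2.1 i))))‖
      rw [hsub, k0_norm]
      congr 1
      linarith
  · obtain ⟨f, hf, hf'⟩ := hmain n h2
    refine ⟨1, one_pos, fun U _ _ => ⟨fun x => f x, hf.comp IsEmbedding.subtypeVal,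
      fun γ hγ hv => ?_⟩⟩
    have hv' : eVariationOn (fun t => (γ t : EuclideanSpace ℝ (Fin n))) (Icc 0 1) ≠ ⊤ := hv
    rcases hf' (fun t => γ t) (continuous_subtype_val.comp_continuousOn hγ) hv' with h3 | h3
    · have h4 : eVariationOn γ (Icc 0 1) = 0 := by
        refine eVariationOn.constant_on ?_
        rintro _ ⟨s, hs, rfl⟩ _ ⟨t, ht, rfl⟩
        exact Subtype.ext ((h3 s hs).trans (h3 t ht).symm)
      rw [h4]
      exact zero_le
    · rw [h3]
      exact le_top

end Pool.Agent.Results.MP_ecd4e3_gt.WildEmbedding
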